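import Pool.Agent.TH958.T6.Lb
import Pool.Agent.TH958.T5.Fin
import Pool.Agent.TH958.T3.Fin
import Pool.Agent.W309.RF.ZetaR

/-!
Rank and order of vanishing for `y ^ 2 = x ^ 3 + (3 x + 4 (1 - h ^ (p ^ ν + 1))) ^ 2` over function
fields.
-/

set_option autoImplicit false
set_option linter.all false
set_option maxHeartbeats 4000000

open Polynomial WeierstrassCurve WeierstrassCurve.Affine

namespace Pool.Agent.TH958.T6

open Pool.Agent.W343.BSD Pool.Agent.W309.RK
open Pool.Agent.TH958.T4 (six_ne ord_shift ord_one_sub' ne_of_pos constDeg_eq_one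
  isCurveField_rat)

/-- the `j`-invariant is not in `k` -/
theorem j_ne {k K : Type} [Field k] [Finite k] [Field K] [Algebra k K] [FF.IsFF k K]
    (h6 : (6 : k) ≠ 0) {d : ℕ} (hd : 0 < d) {h : K} (hA : Adm k d h) (c : k) :
    6912 * aS d h ^ 3 ≠ algebraMap k K c * (4 * aS d h ^ 3 + 27 * bS d h ^ 2) := by
  obtain ⟨h2K, h3K, h4K, hh0, hhc, hβ0, hpole, hΔ⟩ := facts h6 hd hA
  have h2 : (2 : k) ≠ 0 := fun e => h6 (by linear_combination 3 * e)
  have h3 : (3 : k) ≠ 0 := fun e => h6 (by linear_combination 2 * e)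
  obtain ⟨v, hv, -, -, -⟩ := hA.zero
  have h6912 : (6912 : K) ≠ 0 := by
    have : (6912 : K) = 2 ^ 8 * 3 ^ 3 := by norm_num
    rw [this]
    exact mul_ne_zero (pow_ne_zero _ h2K) (pow_ne_zero _ h3K)
  have n6912 : (6912 : k) ≠ 0 := by
    have : (6912 : k) = 2 ^ 8 * 3 ^ 3 := by norm_num
    rw [this]
    exact mul_ne_zero (pow_ne_zero _ h2) (pow_ne_zero _ h3)
  have hs : 0 < v.ord (h ^ d) := by
    rw [v.ord_pow]
    exact mul_pos (by exact_mod_cast hd) hv
  have n24 : (24 : k) ≠ 0 := by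
    have : (24 : k) = 2 ^ 3 * 3 := by norm_num
    rw [this]
    exact mul_ne_zero (pow_ne_zero _ h2) h3
  -- `a` is a unit at `v`
  have e1 : aS d h ≠ 0 ∧ v.ord (aS d h) = 0 := by
    have g1 : v.ord (algebraMap k K 24 * h ^ d) = v.ord (h ^ d) := by
      rw [v.ord_mul ((map_ne_zero (algebraMap k K)).2 n24) (pow_ne_zero _ hh0), v.ord_const n24,
        zero_add]
    have g2 : v.ord (algebraMap k K 3) = 0 := v.ord_const h3
    have g3 := v.ord_add_eq (f := algebraMap k K 3) (g := algebraMap k K 24 * h ^ d)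
      ((map_ne_zero (algebraMap k K)).2 h3)
      (mul_ne_zero ((map_ne_zero (algebraMap k K)).2 n24) (pow_ne_zero _ hh0))
      (by rw [g1, g2]; exact hs)
    have e : aS d h = -(algebraMap k K 3 + algebraMap k K 24 * h ^ d) := by
      unfold aS
      rw [map_ofNat, map_ofNat]
      ring
    rw [e, v.ord_neg, g3.2, g2]
    exact ⟨neg_ne_zero.2 g3.1, rfl⟩
  have e2 : v.ord (6912 * aS d h ^ 3) = 0 := by
    have g : (6912 : K) = algebraMap k K 6912 := by rw [map_ofNat]
    rw [v.ord_mul h6912 (pow_ne_zero 3 e1.1), v.ord_pow, e1.2, g, v.ord_const n6912]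
    ring
  intro he
  by_cases hc : c = 0
  · rw [hc, map_zero, zero_mul] at he
    exact mul_ne_zero h6912 (pow_ne_zero 3 e1.1) he
  · have n108 : (108 : k) ≠ 0 := by
      have : (108 : k) = 2 ^ 2 * 3 ^ 3 := by norm_num
      rw [this]
      exact mul_ne_zero (pow_ne_zero _ h2) (pow_ne_zero _ h3)
    have m108 : (108 : K) ≠ 0 := by
      have : (108 : K) = 2 ^ 2 * 3 ^ 3 := by norm_num
      rw [this]
      exact mul_ne_zero (pow_ne_zero _ h2K) (pow_ne_zero _ h3K)
    have g108 : v.ord (108 : K) = 0 := by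
      have := v.ord_const n108
      rwa [map_ofNat] at this
    have hb0 : v.ord (bet d h) = 0 := by
      have g := ord_one_sub' v hs
      have g4 : v.ord (4 : K) = 0 := by
        have n4 : (4 : k) ≠ 0 := by
          have : (4 : k) = 2 * 2 := by norm_num
          rw [this]
          exact mul_ne_zero h2 h2
        have := v.ord_const n4
        rwa [map_ofNat] at this
      unfold bet
      rw [v.ord_mul h4K g.1, g4, g.2, add_zero]
    have h5 := congrArg v.ord he
    rw [e2, v.ord_mul ((map_ne_zero (algebraMap k K)).2 hc) hΔ, v.ord_const hc, zero_add,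
      disc_eq h3K, v.ord_neg, v.ord_mul (pow_ne_zero 3 hβ0) (mul_ne_zero m108 (pow_ne_zero _ hh0)),
      v.ord_pow, hb0, v.ord_mul m108 (pow_ne_zero _ hh0), g108] at h5
    omega

open Classical in
/-- The main statement. -/
def RankOrder (k : Type) {K : Type} [Field k] [Finite k] [Field K] [Algebra k K] (ρ : ℕ)
    (a b : K) : Prop :=
  (4 * a ^ 3 + 27 * b ^ 2 ≠ 0 ∧
    ∀ c : k, 6912 * a ^ 3 ≠ algebraMap k K c * (4 * a ^ 3 + 27 * b ^ 2)) ∧
  (∃ P : (W313.Gr.curve a b).toAffine.Point, addOrderOf P = 3) ∧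
  (∃ P : Fin ρ → (W313.Gr.curve a b).toAffine.Point, LinearIndependent ℤ P) ∧
  (∀ M : ℕ, S.VanishesTo k a b M → M ≤ ρ) ∧
  ∀ r : ℕ, W313.Gr.HasOrder k a b r → W313.Gr.rank a b ≤ r → r = ρ ∧ W313.Gr.rank a b = ρ

theorem main {p ν : ℕ} (hp : p.Prime) (hp5 : 5 ≤ p) (hQ : p ^ ν % 3 = 1) (hν : 1 ≤ ν)
    {k K : Type} [Field k] [Finite k] [Field K] [Algebra k K] [FF.IsFF k K] {n : ℕ}
    (hcard : Nat.card k = p ^ (2 * ν * n)) (hc : constDeg k K = 1)
    (hcl : ¬ 3 ∣ S.classNumber k K) {h : K} (hA : Adm k (p ^ ν + 1) h) :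
    RankOrder k (p ^ ν) (aS (p ^ ν + 1) h) (bS (p ^ ν + 1) h) := by
  classical
  have : Fact p.Prime := ⟨hp⟩
  have hch : CharP k p := charP_of_card hp hcard
  obtain ⟨-, ω, hω⟩ := exists_prim_and_i (p := p) (by omega) hcard
  have hpf : p ≤ p ^ ν := Nat.le_self_pow (by omega) p
  have h6 : (6 : k) ≠ 0 := six_ne hp hp5
  have hd0 : 0 < p ^ ν + 1 := by omega
  have hq : 3 ∣ Nat.card k - 1 := by
    rw [hcard]
    have e : p ^ (2 * ν * n) = (p ^ ν) ^ (2 * n) := by
      rw [← pow_mul]; ring_nf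
    rw [e]
    have h7 : ((p ^ ν) ^ (2 * n)) % 3 = 1 := by
      rw [Nat.pow_mod, hQ, one_pow]
      norm_num
    omega
  obtain ⟨h2K, h3K, h4K, hh0, hhc, hβ0, hpole, hΔ⟩ := facts h6 hd0 hA
  have hlow := lower h6 (m := p ^ ν / 3) (by omega) (by omega) hω hA
  have hup : ∀ M : ℕ, S.VanishesTo k (aS (p ^ ν + 1) h) (bS (p ^ ν + 1) h) M → M ≤ p ^ ν := by
    intro M hM
    have := upper h6 hc hcl hq (by omega) (by omega) hω hA M hM
    omega
  refine ⟨⟨hΔ, j_ne h6 hd0 hA⟩, ?_, ?_, hup, ?_⟩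
  · convert TH639.B3.order_of_isT3 h2K h3K hβ0 (isT3 (p ^ ν + 1) h)
  · exact hlow
  · exact T5.equalities hlow hup

section rat

open Pool.Agent.W309.RF Pool.Agent.H525R3.FFp FF

variable {k : Type} [Field k] [Finite k]

theorem oneZero_irr {π : k[X]} (hπ : Irreducible π) (h3 : ¬ 3 ∣ π.natDegree) :
    OneZero k (A π) := by
  classical
  have hpos : 0 < π.natDegree := by
    rcases Nat.eq_zero_or_pos π.natDegree with h0 | h0
    · rw [h0] at h3
      exact absurd (dvd_zero 3) h3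
    · exact h0
  have hinf := T4.ord_inf_A (k := k) hπ.ne_zero
  have hfin : ∀ w : Place k (RatFunc k), 0 < w.ord (A π) → w ≠ infty k := by
    rintro w hw rfl
    rw [hinf] at hw
    omega
  obtain ⟨v, hv⟩ : ∃ v : Place k (RatFunc k), 0 < v.ord (A π) := by
    by_contra hcon
    push Not at hcon
    have h0 : ddeg (divisor k (A π)) = 0 := ddeg_divisor _
    have hle : divisor k (A π) ≤ Finsupp.single (infty k) (-(π.natDegree : ℤ)) := by
      intro w
      rw [divisor_apply, Finsupp.single_apply]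
      split_ifs with h
      · subst h; rw [hinf]
      · exact hcon w
    have h2 := ddeg_mono hle
    rw [ddeg_single, h0, inf_deg infty_X] at h2
    push_cast at h2
    omega
  have hvf := fin_of_ne (hfin v hv)
  obtain ⟨π', hm, hirr, hord, hnn, hdvd, hdeg⟩ := fin_exists hvf
  have hass : Associated π' π := hirr.associated_of_dvd hπ ((hdvd π hπ.ne_zero).1 hv)
  have hord1 : v.ord (A π) = 1 := by
    obtain ⟨u, hu⟩ := hass
    obtain ⟨c, hc, hcu⟩ := Polynomial.isUnit_iff.1 u.isUnit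
    rw [← hu, ← hcu]
    show v.ord (algebraMap k[X] (RatFunc k) _) = 1
    have hc' : c ≠ 0 := hc.ne_zero
    rw [map_mul, v.ord_mul (A_ne hirr.ne_zero) (A_ne (C_ne_zero.2 hc')), hord, A_C,
      v.ord_const hc', add_zero]
  refine ⟨v, hv, by rw [hord1]; norm_num, ?_, fun w hw => ?_⟩
  · rw [S.deg_eq, hdeg, deg_of_assoc hass]
    exact h3
  · exact fin_unique (fin_of_ne (hfin w hw)) hvf hπ hw hv

theorem adm_of {d : ℕ} {h : k[X]} (hh : Irreducible h) (h3 : ¬ 3 ∣ h.natDegree)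
    (hz : ∀ z : k, z ^ d = 1 → Irreducible (h - C z)) :
    Adm k d (algebraMap k[X] (RatFunc k) h) where
  zero := oneZero_irr hh h3
  shift := by
    intro z hzz
    have h1 := oneZero_irr (hz z hzz) (by rw [natDegree_sub_C]; exact h3)
    have e : A (h - C z) = algebraMap k[X] (RatFunc k) h - algebraMap k (RatFunc k) z := by
      show algebraMap k[X] (RatFunc k) (h - C z) = _
      rw [map_sub, ← A_C]
    rwa [e] at h1
  pole := by
    have hinf := T4.ord_inf_A (k := k) hh.ne_zero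
    have hpos : 0 < h.natDegree := by
      rcases Nat.eq_zero_or_pos h.natDegree with h0 | h0
      · rw [h0] at h3
        exact absurd (dvd_zero 3) h3
      · exact h0
    refine ⟨infty k, ?_, ?_, ?_, ?_⟩
    · show (infty k).ord (A h) < 0
      rw [hinf]
      omega
    · show ¬ (3 : ℤ) ∣ (infty k).ord (A h)
      rw [hinf, dvd_neg]
      intro hd
      exact h3 (by exact_mod_cast hd)
    · rw [S.deg_eq, inf_deg infty_X]
      norm_num
    · intro w hw _
      by_contra hne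
      have h1 : 0 ≤ w.ord (A h) := (w.reg_iff (A_ne hh.ne_zero)).1 (fin_reg (fin_of_ne hne) h)
      have h3 : w.ord (A h) < 0 := hw
      omega

end rat

theorem exist {p ν : ℕ} (hp : p.Prime) (hp5 : 5 ≤ p) (hν : 1 ≤ ν) :
    ∃ (k : Type) (_ : Field k) (_ : Finite k) (n : ℕ),
      Nat.card k = p ^ (2 * ν * n) ∧ IsCurveField k (RatFunc k) ∧
      ¬ 3 ∣ S.classNumber k (RatFunc k) ∧ ∀ N : ℕ, ∃ h : k[X], N ≤ h.natDegree ∧
        Adm k (p ^ ν + 1) (algebraMap k[X] (RatFunc k) h) := by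
  haveI : Fact p.Prime := ⟨hp⟩
  obtain ⟨k, i1, i2, -, n, hcard, hh⟩ := T3.exists_family p ν hν
  refine ⟨k, i1, i2, n, hcard, isCurveField_rat, ?_, fun N => ?_⟩
  · rw [W309.RF.classNumber_rat]
    norm_num
  · obtain ⟨h, hN, h3, hirr, hz⟩ := hh N
    exact ⟨h, hN, adm_of hirr h3 hz⟩

end Pool.Agent.TH958.T6
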