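import Pool.Agent.TH958.T6.Ub
import Pool.Agent.TH958.T3.Ind

/-!
Independent points on `y ^ 2 = x ^ 3 + (3 x + 4 (1 - h ^ (p ^ ν + 1))) ^ 2` over a function field.
-/

set_option autoImplicit false
set_option linter.all false
set_option maxHeartbeats 4000000

open WeierstrassCurve WeierstrassCurve.Affine Polynomial FF
open scoped Classical

namespace Pool.Agent.TH958.T6

open Pool.Agent.W343.BSD Pool.Agent.W309.RK
open Pool.Agent.W313.Gr (curve)
open Pool.Agent.TH639.B3 (curve_eq)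
open Pool.Agent.TH958.T3 (TD IsMul val_zero val_ne Lam Lam_some lamHom three_tors)
open Pool.Agent.TH958.T4 (ord_sub_const ord_shift ord_of_zero ne_of_pos ord_nonneg_sub ord_one_sub
  ord_one_sub' ord_one_add ord_one_add')

section psi

variable {k K : Type} [Field k] [Field K] [Algebra k K]

/-- the valuation modulo three, times a constant -/
noncomputable def psi (v : Place k K) (u : ZMod 3) (x : K) : ZMod 3 := u * ((v.ord x : ℤ) : ZMod 3)

lemma psi_mul (v : Place k K) (u : ZMod 3) : IsMul (psi v u) := by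
  intro x y hx hy
  unfold psi
  rw [v.ord_mul hx hy]
  push_cast
  ring

lemma psi_const (v : Place k K) (u : ZMod 3) {c : k} (hc : c ≠ 0) :
    psi v u (algebraMap k K c) = 0 := by
  unfold psi
  rw [v.ord_const hc, Int.cast_zero, mul_zero]

lemma psi_zero (v : Place k K) (u : ZMod 3) {x : K} (hx : v.ord x = 0) : psi v u x = 0 := by
  unfold psi
  rw [hx, Int.cast_zero, mul_zero]

end psi

section pts

variable {K : Type} [Field K]

/-- first coordinate of the points, shifted by three -/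
def px (m : ℕ) (z : K) : K := -(4 * z * z ^ m * (1 + z ^ m))

/-- second coordinate of the points -/
def py (m : ℕ) (z : K) : K := 4 * z * ((1 + z ^ m) ^ 3 - z * (z ^ m) ^ 3)

lemma py_sub (m : ℕ) (z β : K)
    (hβ : β = -(4 * z * (1 + (z ^ m) ^ 3 + z * (z ^ m) ^ 3))) :
    py m z - (3 * px m z + β) = 8 * z * (1 + z ^ m) ^ 3 := by
  rw [hβ, px, py]
  ring

lemma py_sq (m : ℕ) (z β : K)
    (hβ : β = -(4 * z * (1 + (z ^ m) ^ 3 + z * (z ^ m) ^ 3))) :
    py m z ^ 2 = px m z ^ 3 + (3 * px m z + β) ^ 2 := by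
  rw [hβ, px, py]
  ring

/-- the identity behind the points -/
theorem beta_identity {p : ℕ} [Fact p.Prime] [CharP K p] {ν m : ℕ}
    (hm : p ^ ν = 3 * m + 1) {ζ : K} (hζ : ζ ^ (p ^ ν + 1) = 1) (h : K) :
    bet (p ^ ν + 1) h = -(4 * (ζ * h - 1) *
      (1 + ((ζ * h - 1) ^ m) ^ 3 + (ζ * h - 1) * ((ζ * h - 1) ^ m) ^ 3)) := by
  set z : K := ζ * h - 1 with hz
  have h1 : z ^ (p ^ ν) = (ζ * h) ^ (p ^ ν) - 1 := by
    rw [hz, sub_pow_char_pow, one_pow]
  have h2 : z * (z ^ m) ^ 3 = z ^ (p ^ ν) := by rw [hm]; ring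
  have h4 : (ζ * h) ^ (p ^ ν + 1) = h ^ (p ^ ν + 1) := by
    rw [mul_pow, hζ, one_mul]
  have h5 : (z ^ (p ^ ν) + 1) * (z + 1) = h ^ (p ^ ν + 1) := by
    rw [← h4, pow_succ, h1, hz]; ring
  unfold bet
  rw [← h5, ← h2]
  ring

end pts

section tor

variable {k K : Type} [Field k] [Field K] [Algebra k K]

/-- the three-division polynomial has no root -/
theorem no_root {c4 c12 : k} (h4 : c4 ≠ 0) (h12 : c12 ≠ 0) {B : K} {v : Place k K}
    (hB : v.ord B < 0) (hB3 : ¬ (3 : ℤ) ∣ v.ord B)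
    (x : K) (hx : x ^ 3 + algebraMap k K c12 * x ^ 2 + algebraMap k K c12 * B * x +
      algebraMap k K c4 * B ^ 2 = 0) : False := by
  have hB0 : B ≠ 0 := ne_of_pos v hB.ne
  have h4K : algebraMap k K c4 ≠ 0 := by simpa using h4
  have h12K : algebraMap k K c12 ≠ 0 := by simpa using h12
  have hx0 : x ≠ 0 := by
    rintro rfl
    apply mul_ne_zero h4K (pow_ne_zero 2 hB0)
    linear_combination hx
  have d1 : v.ord (x ^ 3) = 3 * v.ord x := by rw [v.ord_pow]; push_cast; ring
  have d2 : v.ord (algebraMap k K c12 * x ^ 2) = 2 * v.ord x := by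
    rw [v.ord_mul h12K (pow_ne_zero 2 hx0), v.ord_const h12, v.ord_pow]; push_cast; ring
  have d3 : v.ord (algebraMap k K c12 * B * x) = v.ord B + v.ord x := by
    rw [v.ord_mul (mul_ne_zero h12K hB0) hx0, v.ord_mul h12K hB0, v.ord_const h12]; ring
  have d4 : v.ord (algebraMap k K c4 * B ^ 2) = 2 * v.ord B := by
    rw [v.ord_mul h4K (pow_ne_zero 2 hB0), v.ord_const h4, v.ord_pow]; push_cast; ring
  have n1 : x ^ 3 ≠ 0 := pow_ne_zero 3 hx0
  have n2 : algebraMap k K c12 * x ^ 2 ≠ 0 := mul_ne_zero h12K (pow_ne_zero 2 hx0)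
  have n3 : algebraMap k K c12 * B * x ≠ 0 := mul_ne_zero (mul_ne_zero h12K hB0) hx0
  have n4 : algebraMap k K c4 * B ^ 2 ≠ 0 := mul_ne_zero h4K (pow_ne_zero 2 hB0)
  -- a lower bound for a sum
  have key : ∀ (N : ℤ) (a b : K), (a = 0 ∨ N < v.ord a) → (b = 0 ∨ N < v.ord b) →
      (a + b = 0 ∨ N < v.ord (a + b)) := by
    intro N a b ha hb
    by_cases h0 : a + b = 0
    · exact Or.inl h0
    right
    rcases ha with ha | ha
    · rw [ha, zero_add] at h0 ⊢
      exact hb.resolve_left h0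
    rcases hb with hb | hb
    · rw [hb, add_zero] at h0 ⊢
      exact ha
    by_cases ha0 : a = 0
    · rw [ha0, zero_add]
      exact hb
    by_cases hb0 : b = 0
    · rw [hb0, add_zero]
      exact ha
    exact lt_of_lt_of_le (lt_min ha hb) (v.ord_add ha0 hb0 h0)
  rcases lt_trichotomy (3 * v.ord x) (2 * v.ord B) with h | h | h
  · have e : x ^ 3 = -(algebraMap k K c12 * x ^ 2 + algebraMap k K c12 * B * x +
        algebraMap k K c4 * B ^ 2) := by linear_combination hx
    have h5 := key (3 * v.ord x) _ (algebraMap k K c4 * B ^ 2)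
      (key (3 * v.ord x) (algebraMap k K c12 * x ^ 2)
      (algebraMap k K c12 * B * x) (Or.inr (by rw [d2]; omega)) (Or.inr (by rw [d3]; omega)))
      (Or.inr (by rw [d4]; omega))
    rcases h5 with h5 | h5
    · rw [h5, neg_zero] at e
      exact n1 e
    · have h6 := congrArg v.ord e
      rw [v.ord_neg, d1] at h6
      omega
  · omega
  · have e : algebraMap k K c4 * B ^ 2 = -(x ^ 3 + algebraMap k K c12 * x ^ 2 +
        algebraMap k K c12 * B * x) := by linear_combination hx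
    have h5 := key (2 * v.ord B) _ (algebraMap k K c12 * B * x)
      (key (2 * v.ord B) (x ^ 3)
      (algebraMap k K c12 * x ^ 2) (Or.inr (by rw [d1]; omega)) (Or.inr (by rw [d2]; omega)))
      (Or.inr (by rw [d3]; omega))
    rcases h5 with h5 | h5
    · rw [h5, neg_zero] at e
      exact n4 e
    · have h6 := congrArg v.ord e
      rw [v.ord_neg, d4] at h6
      omega

/-- the points of order three -/
theorem tors_val (h6 : (6 : k) ≠ 0) {B : K} {v : Place k K}
    (hB : v.ord B < 0) (hB3 : ¬ (3 : ℤ) ∣ v.ord B) {a b : K}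
    (T : TD a b 3 B 3) {ψ : K → ZMod 3} (hv : ψ (-(2 * B)) ≠ 0)
    (P : (curve a b).toAffine.Point) (hP : (3 : ℤ) • P = 0)
    (h0 : Lam ψ a b 3 B 3 P = 0) : P = 0 := by
  have h2 : (2 : k) ≠ 0 := fun e => h6 (by linear_combination 3 * e)
  have h3 : (3 : k) ≠ 0 := fun e => h6 (by linear_combination 2 * e)
  have h2K : (2 : K) ≠ 0 := by
    have : algebraMap k K 2 ≠ 0 := by simpa using h2
    rwa [map_ofNat] at this
  have h3K : (3 : K) ≠ 0 := by
    have : algebraMap k K 3 ≠ 0 := by simpa using h3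
    rwa [map_ofNat] at this
  by_contra hne
  obtain ⟨x, y, hns, rfl, hdiv⟩ := three_tors h2K hne hP
  have hB0 : B ≠ 0 := ne_of_pos v hB.ne
  obtain ⟨T1, T2, T3⟩ := T
  have heq := (curve_eq a b x y).1 hns.1
  have ha : a = 2 * 3 * B - 27 := by linear_combination T2
  have hb : b = B ^ 2 - 18 * B + 54 := by
    linear_combination T3 - 3 * ha
  have hfac : 3 * (x - 3) * ((x - 3) ^ 3 + 12 * (x - 3) ^ 2 + 12 * B * (x - 3) + 4 * B ^ 2) = 0 := by
    rw [ha, hb] at hdiv
    linear_combination hdiv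
  rcases mul_eq_zero.1 hfac with h | h
  · have hx : x - 3 = 0 := by
      rcases mul_eq_zero.1 h with h' | h'
      · exact absurd h' h3K
      · exact h'
    have hx' : x = 3 := by linear_combination hx
    have hy : (y - B) * (y + B) = 0 := by
      rw [hx', ha, hb] at heq
      linear_combination heq
    rw [Lam_some, hx] at h0
    rcases mul_eq_zero.1 hy with h' | h'
    · rw [val_zero (by linear_combination h')] at h0
      exact hv (neg_eq_zero.1 h0)
    · have e : y - (3 * 0 + B) = -(2 * B) := by linear_combination h'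
      rw [val_ne (by rw [e]; exact neg_ne_zero.2 (mul_ne_zero h2K hB0)), e] at h0
      exact hv h0
  · have h4 : (4 : k) ≠ 0 := by
      have : (4 : k) = 2 * 2 := by norm_num
      rw [this]
      exact mul_ne_zero h2 h2
    have h12 : (12 : k) ≠ 0 := by
      have : (12 : k) = 4 * 3 := by norm_num
      rw [this]
      exact mul_ne_zero h4 h3
    refine no_root (c4 := 4) (c12 := 12) h4 h12 hB hB3 (x - 3) ?_
    rw [map_ofNat, map_ofNat]
    exact h

end tor

section low

variable {k K : Type} [Field k] [Field K] [Algebra k K]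

theorem lower [Finite k] [FF.IsFF k K] (h6 : (6 : k) ≠ 0) {p : ℕ} [Fact p.Prime] [CharP k p]
    {ν m : ℕ} (hm0 : 0 < m) (hm : p ^ ν = 3 * m + 1) {ω : k}
    (hω : IsPrimitiveRoot ω (p ^ ν + 1)) {h : K} (hA : Adm k (p ^ ν + 1) h) :
    ∃ P : Fin (p ^ ν) → (curve (aS (p ^ ν + 1) h) (bS (p ^ ν + 1) h)).toAffine.Point,
      LinearIndependent ℤ P := by
  set d := p ^ ν + 1 with hd
  have hdpos : 0 < d := by omega
  obtain ⟨h2K, h3K, h4K, hh0, hhc, hβ0, hpole, hΔ⟩ := facts h6 hdpos hA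
  have h2 : (2 : k) ≠ 0 := fun e => h6 (by linear_combination 3 * e)
  have h4k : (4 : k) ≠ 0 := by
    have : (4 : k) = 2 * 2 := by norm_num
    rw [this]
    exact mul_ne_zero h2 h2
  have h8k : (8 : k) ≠ 0 := by
    have : (8 : k) = 2 * 4 := by norm_num
    rw [this]
    exact mul_ne_zero h2 h4k
  have h8K : (8 : K) ≠ 0 := by
    have : (8 : K) = 2 * 4 := by norm_num
    rw [this]
    exact mul_ne_zero h2K h4K
  haveI : CharP K p := charP_of_injective_ringHom (algebraMap k K).injective p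
  set B := bet d h with hB
  obtain ⟨vi, hvi, hvio, hvid, hviu⟩ := hA.pole
  have hunit : (1 : k) ∈ nthRootsFinset d (1 : k) := (mem_nthRootsFinset hdpos 1).2 (one_pow d)
  let ι := {z : k // z ∈ (nthRootsFinset d (1 : k)).erase 1}
  letI : Fintype ι := Finset.Subtype.fintype _
  have hι : ∀ z : ι, z.1 ^ d = 1 := fun z =>
    (mem_nthRootsFinset hdpos 1).1 (Finset.mem_erase.1 z.2).2
  have hι1 : ∀ z : ι, z.1 ≠ 1 := fun z => (Finset.mem_erase.1 z.2).1
  have hz0 : ∀ z : k, z ^ d = 1 → z ≠ 0 := by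
    intro z hz h0
    rw [h0, zero_pow hdpos.ne'] at hz
    exact zero_ne_one hz
  have hcard : Fintype.card ι = p ^ ν := by
    rw [Fintype.card_coe, Finset.card_erase_of_mem hunit, hω.card_nthRootsFinset]
    omega
  -- the points
  let Z : k → K := fun z => algebraMap k K z⁻¹ * h - 1
  have hfac : ∀ z : k, z ^ d = 1 → Z z = algebraMap k K z⁻¹ * (h - algebraMap k K z) := by
    intro z hz
    have hinv : algebraMap k K z⁻¹ * algebraMap k K z = 1 := by
      rw [← map_mul, inv_mul_cancel₀ (hz0 z hz), map_one]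
    show algebraMap k K z⁻¹ * h - 1 = _
    linear_combination hinv
  have hbid : ∀ z : k, z ^ d = 1 → B = -(4 * Z z * (1 + ((Z z) ^ m) ^ 3 +
      Z z * ((Z z) ^ m) ^ 3)) := fun z hz =>
    beta_identity hm (by rw [← map_pow, inv_pow, hz, inv_one, map_one]) h
  -- the order of `Z` at infinity
  have hZi : ∀ z : k, z ^ d = 1 → vi.ord (Z z) = vi.ord h := by
    intro z hz
    have hc : algebraMap k K z⁻¹ ≠ 0 := by simpa using hz0 z hz
    have h1 : vi.ord (algebraMap k K z⁻¹ * h) = vi.ord h := by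
      rw [vi.ord_mul hc hh0, vi.ord_const (inv_ne_zero (hz0 z hz)), zero_add]
    have h3 := (ord_one_sub vi (x := algebraMap k K z⁻¹ * h) (by rw [h1]; exact hvi)).2
    have e : Z z = -(1 - algebraMap k K z⁻¹ * h) := by
      show algebraMap k K z⁻¹ * h - 1 = _
      ring
    rw [e, vi.ord_neg, h3, h1]
  have hZ0 : ∀ z : k, z ^ d = 1 → Z z ≠ 0 := fun z hz => by
    rw [hfac z hz]
    exact mul_ne_zero (by simpa using hz0 z hz) (sub_ne_zero.2 (hhc z))
  have hm' : (0 : ℤ) < m := by exact_mod_cast hm0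
  have h1Z : ∀ z : k, z ^ d = 1 → (1 + (Z z) ^ m) ≠ 0 ∧
      vi.ord (1 + (Z z) ^ m) = m * vi.ord h := by
    intro z hz
    have h1 : vi.ord ((Z z) ^ m) < 0 := by
      rw [vi.ord_pow, hZi z hz]
      exact mul_neg_of_pos_of_neg hm' hvi
    have h3 := ord_one_add vi h1
    rw [vi.ord_pow, hZi z hz] at h3
    exact h3
  have hpy : ∀ z : k, z ^ d = 1 → py m (Z z) ≠ 0 := by
    intro z hz hcon
    unfold py at hcon
    have h5 := (mul_eq_zero.1 hcon).resolve_left (mul_ne_zero h4K (hZ0 z hz))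
    have h7 := congrArg vi.ord (sub_eq_zero.1 h5)
    rw [vi.ord_pow, (h1Z z hz).2, vi.ord_mul (hZ0 z hz) (pow_ne_zero _ (pow_ne_zero _ (hZ0 z hz))),
      vi.ord_pow, vi.ord_pow, hZi z hz] at h7
    push_cast at h7
    have : vi.ord h = 0 := by linear_combination -h7
    omega
  have heq : ∀ z : k, z ^ d = 1 → (curve (aS d h) (bS d h)).toAffine.Nonsingular
      (px m (Z z) + 3) (py m (Z z)) := fun z hz => by
    have h5 := py_sq m _ B (hbid z hz)
    rw [nonsingular_iff]
    constructor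
    · rw [curve_eq, (td d h).eqn, add_sub_cancel_right]
      exact h5
    · right
      show _ ≠ -_ - 0 * _ - 0
      intro h8
      have h9 : (2 : K) * py m (Z z) = 0 := by linear_combination h8
      rcases mul_eq_zero.1 h9 with h10 | h10
      · exact h2K h10
      · exact hpy z hz h10
  -- the places
  have hch : ∀ z : k, ∃ v : Place k K, z ^ d = 1 → (0 < v.ord (h - algebraMap k K z) ∧
      ¬ (3 : ℤ) ∣ v.ord (h - algebraMap k K z)) := by
    intro z
    by_cases hz : z ^ d = 1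
    · obtain ⟨v, hv1, hv2, -, -⟩ := hA.shift z hz
      exact ⟨v, fun _ => ⟨hv1, hv2⟩⟩
    · exact ⟨vi, fun h => absurd h hz⟩
  choose V hV using hch
  let u : k → ZMod 3 := fun z => (((V z).ord (h - algebraMap k K z) : ℤ) : ZMod 3)⁻¹
  haveI : Fact (Nat.Prime 3) := ⟨Nat.prime_three⟩
  have hu : ∀ z : k, z ^ d = 1 →
      u z * (((V z).ord (h - algebraMap k K z) : ℤ) : ZMod 3) = 1 := by
    intro z hz
    apply inv_mul_cancel₀
    intro h0
    exact (hV z hz).2 ((ZMod.intCast_zmod_eq_zero_iff_dvd _ 3).1 h0)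
  let P : ι → (curve (aS d h) (bS d h)).toAffine.Point := fun z => Point.some _ _ (heq z.1 (hι z))
  have hval : ∀ (z w : k) (hz : z ^ d = 1) (hw : w ^ d = 1),
      Lam (psi (V w) (u w)) (aS d h) (bS d h) 3 B 3 (Point.some _ _ (heq z hz)) =
        if z = w then 1 else 0 := by
    intro z w hz hw
    rw [Lam_some, add_sub_cancel_right]
    have hc0 : 8 * z⁻¹ ≠ 0 := mul_ne_zero h8k (inv_ne_zero (hz0 z hz))
    have e1 : py m (Z z) - (3 * px m (Z z) + B) =
        algebraMap k K (8 * z⁻¹) * ((h - algebraMap k K z) * (1 + (Z z) ^ m) ^ 3) := by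
      rw [py_sub m _ B (hbid z hz), map_mul, map_ofNat]
      linear_combination (8 * (1 + (Z z) ^ m) ^ 3) * hfac z hz
    have n1 : algebraMap k K (8 * z⁻¹) ≠ 0 := (map_ne_zero (algebraMap k K)).2 hc0
    have n2 : h - algebraMap k K z ≠ 0 := sub_ne_zero.2 (hhc z)
    have n3 : (1 + (Z z) ^ m) ≠ 0 := (h1Z z hz).1
    have hmul := psi_mul (V w) (u w)
    rw [val_ne (by rw [e1]; exact mul_ne_zero n1 (mul_ne_zero n2 (pow_ne_zero 3 n3))), e1,
      hmul _ _ n1 (mul_ne_zero n2 (pow_ne_zero 3 n3)),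
      hmul _ _ n2 (pow_ne_zero 3 n3), hmul.cube n3, add_zero, psi_const _ _ hc0, zero_add]
    by_cases hzw : z = w
    · subst hzw
      rw [if_pos rfl]
      exact hu z hz
    · rw [if_neg hzw, psi_zero _ _ (ord_shift (V w) (hV w hw).1 (fun e => hzw e.symm)).2]
  have hB1 : psi (V 1) (u 1) (-(2 * B)) ≠ 0 := by
    have hone : (1 : k) ^ d = 1 := one_pow d
    have hZv : (V 1).ord (Z 1) = (V 1).ord (h - algebraMap k K 1) := by
      rw [hfac 1 hone, inv_one, map_one, one_mul]
    have hZp : 0 < (V 1).ord (Z 1) := by rw [hZv]; exact (hV 1 hone).1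
    have e2 : -(2 * B) = algebraMap k K 8 * (Z 1 * (1 + ((Z 1) ^ m) ^ 3 +
        Z 1 * ((Z 1) ^ m) ^ 3)) := by
      rw [map_ofNat]
      linear_combination (-2) * hbid 1 hone
    have h8' : algebraMap k K 8 ≠ 0 := by rw [map_ofNat]; exact h8K
    have e3 : 0 < (V 1).ord (((Z 1) ^ m) ^ 3 * (1 + Z 1)) := by
      have g := ord_one_add' (V 1) hZp
      rw [(V 1).ord_mul (pow_ne_zero _ (pow_ne_zero _ (hZ0 1 hone))) g.1, g.2, (V 1).ord_pow,
        (V 1).ord_pow]
      have := mul_pos hm' hZp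
      push_cast
      omega
    have e4 := ord_one_add' (V 1) e3
    have e5 : 1 + ((Z 1) ^ m) ^ 3 * (1 + Z 1) = 1 + ((Z 1) ^ m) ^ 3 +
        Z 1 * ((Z 1) ^ m) ^ 3 := by ring
    rw [e5] at e4
    have hmul := psi_mul (V 1) (u 1)
    rw [e2, hmul _ _ h8' (mul_ne_zero (hZ0 1 hone) e4.1), hmul _ _ (hZ0 1 hone) e4.1,
      psi_const _ _ h8k, zero_add, psi_zero _ _ e4.2, add_zero]
    unfold psi
    rw [hZv, hu 1 hone]
    exact one_ne_zero
  have hBi : vi.ord B < 0 := by
    rw [hpole vi hvi]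
    exact mul_neg_of_pos_of_neg (by exact_mod_cast hdpos) hvi
  have hBi3 : ¬ (3 : ℤ) ∣ vi.ord B := by
    rw [hpole vi hvi]
    intro h8
    rcases Int.Prime.dvd_mul' Nat.prime_three h8 with h9 | h9
    · have h10 : (3 : ℤ) ∣ ((3 * m + 2 : ℕ) : ℤ) := by
        have e : d = 3 * m + 2 := by omega
        rw [← e]
        exact_mod_cast h9
      have h11 : (3 : ℕ) ∣ 3 * m + 2 := by exact_mod_cast h10
      omega
    · exact hvio (by exact_mod_cast h9)
  have hind : LinearIndependent ℤ P := by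
    apply T3.indep (fun w => lamHom (psi_mul (V w.1) (u w.1)) h2K hβ0 (td d h))
      (lamHom (psi_mul (V 1) (u 1)) h2K hβ0 (td d h)) P
    · intro z w
      have h5 := hval z.1 w.1 (hι z) (hι w)
      refine h5.trans ?_
      by_cases hzw : z = w
      · rw [if_pos hzw, if_pos (congrArg Subtype.val hzw)]
      · rw [if_neg hzw, if_neg (fun hc => hzw (Subtype.ext hc))]
    · intro z
      have h5 := hval z.1 1 (hι z) (one_pow d)
      rw [if_neg (hι1 z)] at h5
      exact h5
    · intro x hx h0x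
      exact tors_val h6 hBi hBi3 (td d h) hB1 x hx h0x
  exact ⟨P ∘ (Fintype.equivFinOfCardEq hcard).symm,
    hind.comp _ (Equiv.injective _)⟩

end low

end Pool.Agent.TH958.T6
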