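import Pool.Agent.TH639.B3.Bd
import Pool.Agent.TH958.T4.Ub
import Pool.Agent.TH958.T3.Desc

/-!
The order of vanishing for `y ^ 2 = x ^ 3 + (3 x + 4 (1 - h ^ d)) ^ 2` over a function field.
-/

set_option autoImplicit false
set_option linter.all false
set_option maxHeartbeats 4000000

open Polynomial FF

namespace Pool.Agent.TH958.T6

open Pool.Agent.W343.BSD Pool.Agent.W309.RK Pool.Agent.W313.Gr Pool.Agent.TH639.B3
open Pool.Agent.TH958.T4 (ord_sub_const ord_shift ord_of_zero ne_of_pos ord_nonneg_sub ord_one_sub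
  ord_one_sub' fac_sub)

section defs

variable (k : Type) {K : Type} [Field k] [Field K] [Algebra k K]

/-- `x` has exactly one zero; its order and the degree of the place are prime to three. -/
def OneZero (x : K) : Prop :=
  ∃ v : Place k K, 0 < v.ord x ∧ ¬ (3 : ℤ) ∣ v.ord x ∧ ¬ 3 ∣ S.deg v ∧
    ∀ w : Place k K, 0 < w.ord x → w = v

/-- The conditions on the function `h`. -/
structure Adm (d : ℕ) (h : K) : Prop where
  zero : OneZero k h
  shift : ∀ ζ : k, ζ ^ d = 1 → OneZero k (h - algebraMap k K ζ)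
  pole : ∃ v : Place k K, v.ord h < 0 ∧ ¬ (3 : ℤ) ∣ v.ord h ∧ ¬ 3 ∣ S.deg v ∧
    ∀ w : Place k K, w.ord h < 0 → ¬ (3 : ℤ) ∣ w.ord h → w = v

end defs

/-- the polynomial `β` -/
def bet {K : Type} [Field K] (d : ℕ) (h : K) : K := 4 * (1 - h ^ d)

/-- the first coefficient -/
def aS {K : Type} [Field K] (d : ℕ) (h : K) : K := -(24 * h ^ d + 3)

/-- the second coefficient -/
def bS {K : Type} [Field K] (d : ℕ) (h : K) : K := 16 * (h ^ d) ^ 2 + 40 * h ^ d - 2

theorem isT3 {K : Type} [Field K] (d : ℕ) (h : K) : IsT3 (aS d h) (bS d h) 3 (bet d h) := by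
  unfold IsT3 aS bS bet
  constructor <;> ring

theorem td {K : Type} [Field K] (d : ℕ) (h : K) : T3.TD (aS d h) (bS d h) 3 (bet d h) 3 := by
  unfold aS bS bet
  constructor <;> ring

theorem disc_eq {K : Type} [Field K] (h3 : (3 : K) ≠ 0) (d : ℕ) (h : K) :
    4 * aS d h ^ 3 + 27 * bS d h ^ 2 = -(bet d h ^ 3 * (108 * h ^ d)) := by
  unfold aS bS bet
  ring

section one

variable {k K : Type} [Field k] [Finite k] [Field K] [Algebra k K] [FF.IsFF k K]

theorem rootSum_zero (hq : 3 ∣ Nat.card k - 1) {P : Polynomial ℤ} {N : ℕ} (hP : P.eval 1 = N)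
    (hN : ¬ 3 ∣ N) : rootSum 3 k P = 0 := by
  have hpos : 1 ≤ Nat.card k := Nat.card_pos
  have h1 : ((Nat.card k : ℕ) : ZMod 3) = 1 := by
    obtain ⟨c, hc⟩ := hq
    have : Nat.card k = 3 * c + 1 := by omega
    rw [this]
    push_cast
    have h3 : (3 : ZMod 3) = 0 := rfl
    rw [h3]
    ring
  have h2 : (P.map (Int.castRingHom (ZMod 3))).rootMultiplicity 1 = 0 := by
    apply rootMultiplicity_eq_zero
    intro h
    rw [IsRoot.def] at h
    have e : (1 : ZMod 3) = Int.castRingHom (ZMod 3) 1 := by simp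
    rw [e, eval_map, eval₂_at_apply, hP] at h
    apply hN
    have h5 : ((N : ℕ) : ZMod 3) = 0 := by simpa using h
    exact (ZMod.natCast_eq_zero_iff _ _).1 h5
  have : Fact (Nat.Prime 3) := ⟨Nat.prime_three⟩
  unfold rootSum
  rw [h1, inv_one, h2]

theorem reg_of {v : Place k K} {x : K} (h : 0 ≤ v.ord x) : v.Reg x := Or.inr h

theorem locTerm_node (h6 : (6 : k) ≠ 0) {v : Place k K} {a b α β c : K} (h : Sc v a b α β c)
    (hΔ : 4 * a ^ 3 + 27 * b ^ 2 ≠ 0) (hb : v.red (c ^ 3 * β) ≠ 0) :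
    locTerm v a b ≤ 1 := by
  by_cases h0 : locTerm v a b = 0
  · omega
  have h3 := h3_of h6
  have hmin := h.isMin h3 (Or.inr hb)
  have hg : v.ord (minDisc v a b) ≠ 0 := fun h1 => h0 (locTerm_good v h1)
  have hn : 4 * v.red (c * α) ^ 3 = 27 * v.red (c ^ 3 * β) := by
    by_contra h1
    exact hg ((h.disc h3 hΔ hmin).2 ⟨hb, h1⟩)
  rcases h.node_pm h6 hΔ hmin hb hn with ht | ht
  · exact (locTerm_one v hg ht).le
  · exfalso
    apply h0
    unfold locTerm
    rw [if_pos (Or.inr ht)]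

theorem locTerm_two (v : Place k K) (a b : K) : locTerm v a b ≤ 2 := by
  refine (locTerm_le v a b).trans ?_
  split_ifs <;> omega

theorem cop3 {n : ℕ} (h : ¬ 3 ∣ n) : 3 ^ padicValNat 3 n = 1 := by
  rw [padicValNat.eq_zero_of_not_dvd h, pow_zero]

/-- the contribution at a pole of order divisible by three -/
theorem term_pole (h6 : (6 : k) ≠ 0) {v : Place k K} {a b β : K} (hT : IsT3 a b 3 β)
    (hΔ : 4 * a ^ 3 + 27 * b ^ 2 ≠ 0) (hβ : β ≠ 0) {e : ℤ} (he : 0 < e)
    (ho : v.ord β = -(3 * e)) : locTerm v a b = 0 := by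
  have h3 := h3_of h6
  obtain ⟨t, ht0, ht⟩ := v.surj
  have h3o : v.ord (3 : K) = 0 := by
    have := v.ord_const h3
    rwa [map_ofNat] at this
  have h3K : (3 : K) ≠ 0 := by
    have : algebraMap k K 3 ≠ 0 := by simpa using h3
    rwa [map_ofNat] at this
  have hc0 : t ^ e ≠ 0 := zpow_ne_zero _ ht0
  have hco : v.ord (t ^ e) = e := by rw [v.ord_zpow, ht, mul_one]
  have oa : v.ord (t ^ e * 3) = e := by rw [v.ord_mul hc0 h3K, hco, h3o, add_zero]
  have ob : v.ord ((t ^ e) ^ 3 * β) = 0 := by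
    rw [v.ord_mul (pow_ne_zero 3 hc0) hβ, v.ord_pow, hco, ho]
    push_cast
    ring
  have hsc : Sc v a b 3 β (t ^ e) := ⟨hT, hc0, Or.inr (by rw [oa]; exact he.le),
    Or.inr (by rw [ob])⟩
  have hb : v.red ((t ^ e) ^ 3 * β) ≠ 0 :=
    v.red_ne_zero (mul_ne_zero (pow_ne_zero 3 hc0) hβ) ob
  have ha : v.red (t ^ e * 3) = 0 := by
    rw [v.red_eq_zero_iff hsc.ra]
    right
    rw [oa]
    exact he
  apply locTerm_good
  rw [hsc.disc h3 hΔ (hsc.isMin h3 (Or.inr hb))]
  refine ⟨hb, ?_⟩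
  rw [ha]
  intro h
  have h27 : (27 : v.RF) ≠ 0 := by
    have : (27 : v.RF) = 3 ^ 3 := by norm_num
    rw [this]; exact pow_ne_zero 3 (n3 h3 v)
  apply mul_ne_zero h27 hb
  rw [← h]
  ring

end one

section upper

variable {k K : Type} [Field k] [Finite k] [Field K] [Algebra k K] [FF.IsFF k K]

theorem bet_eq {d : ℕ} (hd : 0 < d) {ω : k} (hω : IsPrimitiveRoot ω d) (h : K) :
    bet d h = -(4 * ∏ z ∈ nthRootsFinset d (1 : k), (h - algebraMap k K z)) := by
  rw [← fac_sub hd hω]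
  unfold bet
  ring

/-- the basic facts on `h` -/
theorem facts (h6 : (6 : k) ≠ 0) {d : ℕ} (hd : 0 < d) {h : K} (hA : Adm k d h) :
    (2 : K) ≠ 0 ∧ (3 : K) ≠ 0 ∧ (4 : K) ≠ 0 ∧ h ≠ 0 ∧ (∀ c : k, h ≠ algebraMap k K c) ∧
      bet d h ≠ 0 ∧ (∀ v : Place k K, v.ord h < 0 → v.ord (bet d h) = d * v.ord h) ∧
      4 * aS d h ^ 3 + 27 * bS d h ^ 2 ≠ 0 := by
  have h2 : (2 : k) ≠ 0 := fun e => h6 (by linear_combination 3 * e)
  have h3 : (3 : k) ≠ 0 := fun e => h6 (by linear_combination 2 * e)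
  have h2K : (2 : K) ≠ 0 := by
    have : algebraMap k K 2 ≠ 0 := by simpa using h2
    rwa [map_ofNat] at this
  have h3K : (3 : K) ≠ 0 := by
    have : algebraMap k K 3 ≠ 0 := by simpa using h3
    rwa [map_ofNat] at this
  have h4k : (4 : k) ≠ 0 := by
    have : (4 : k) = 2 * 2 := by norm_num
    rw [this]
    exact mul_ne_zero h2 h2
  have h4K : (4 : K) ≠ 0 := by
    have : (4 : K) = 2 * 2 := by norm_num
    rw [this]
    exact mul_ne_zero h2K h2K
  obtain ⟨v0, hv0, -, -, -⟩ := hA.zero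
  obtain ⟨vi, hvi, -, -, -⟩ := hA.pole
  have hh0 : h ≠ 0 := ne_of_pos v0 hv0.ne'
  have hpow : ∀ v : Place k K, v.ord h < 0 → v.ord (h ^ d) < 0 := by
    intro v hv
    rw [v.ord_pow]
    exact mul_neg_of_pos_of_neg (by exact_mod_cast hd) hv
  have o4 : ∀ v : Place k K, v.ord (4 : K) = 0 := by
    intro v
    have := v.ord_const h4k
    rwa [map_ofNat] at this
  have hb : ∀ v : Place k K, v.ord h < 0 → bet d h ≠ 0 ∧ v.ord (bet d h) = d * v.ord h := by
    intro v hv
    obtain ⟨g1, g2⟩ := ord_one_sub v (hpow v hv)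
    unfold bet
    refine ⟨mul_ne_zero h4K g1, ?_⟩
    rw [v.ord_mul h4K g1, o4, zero_add, g2, v.ord_pow]
  refine ⟨h2K, h3K, h4K, hh0, ?_, (hb vi hvi).1, fun v hv => (hb v hv).2, ?_⟩
  · intro c e
    rw [e] at hvi
    by_cases hc : c = 0
    · rw [hc, map_zero, vi.ord_zero] at hvi
      exact lt_irrefl _ hvi
    · rw [vi.ord_const hc] at hvi
      exact lt_irrefl _ hvi
  · rw [disc_eq h3K]
    have h108 : (108 : K) ≠ 0 := by
      have : (108 : K) = 4 * 3 ^ 3 := by norm_num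
      rw [this]
      exact mul_ne_zero h4K (pow_ne_zero 3 h3K)
    exact neg_ne_zero.2 (mul_ne_zero (pow_ne_zero 3 (hb vi hvi).1)
      (mul_ne_zero h108 (pow_ne_zero _ hh0)))

theorem sum_insert_le {ι : Type} [DecidableEq ι] (a : ι) (s : Finset ι) (f : ι → ℕ) :
    ∑ i ∈ insert a s, f i ≤ f a + ∑ i ∈ s, f i := by
  by_cases h : a ∈ s
  · rw [Finset.insert_eq_of_mem h]
    exact Nat.le_add_left _ _
  · rw [Finset.sum_insert h]

theorem upper (h6 : (6 : k) ≠ 0) (hc : constDeg k K = 1) (hcl : ¬ 3 ∣ S.classNumber k K)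
    (hq : 3 ∣ Nat.card k - 1) {d : ℕ} (hd2 : 2 ≤ d) (hd3 : ¬ 3 ∣ d) {ω : k}
    (hω : IsPrimitiveRoot ω d) {h : K} (hA : Adm k d h) (M : ℕ)
    (hM : S.VanishesTo k (aS d h) (bS d h) M) : M ≤ d - 1 := by
  classical
  have hd0 : 0 < d := by omega
  obtain ⟨h2K, h3K, h4K, hh0, hhc, hβ0, hpole, hΔ⟩ := facts h6 hd0 hA
  have h3 : (3 : k) ≠ 0 := h3_of h6
  have h4k : (4 : k) ≠ 0 := by
    have h2 : (2 : k) ≠ 0 := fun e => h6 (by linear_combination 3 * e)
    have : (4 : k) = 2 * 2 := by norm_num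
    rw [this]
    exact mul_ne_zero h2 h2
  obtain ⟨P, hP, hP1⟩ := exists_num_rel k K
  have hbd := bound h6 (isT3 d h) hΔ hP hc hM
  rw [if_pos hq, rootSum_zero hq hP1 (by rw [S.classNumber_eq] at hcl; exact hcl), zero_add] at hbd
  obtain ⟨v0, hv0, hv0o, hv0d, hv0u⟩ := hA.zero
  obtain ⟨vi, hvi, hvio, hvid, hviu⟩ := hA.pole
  set S0 := nthRootsFinset d (1 : k) with hS0
  have hS0' : ∀ z : k, z ∈ S0 ↔ z ^ d = 1 := fun z => by
    rw [hS0, mem_nthRootsFinset hd0]
  have hch : ∀ z : k, ∃ v : Place k K, z ∈ S0 → (0 < v.ord (h - algebraMap k K z) ∧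
      ¬ (3 : ℤ) ∣ v.ord (h - algebraMap k K z) ∧ ¬ 3 ∣ S.deg v ∧
      ∀ w : Place k K, 0 < w.ord (h - algebraMap k K z) → w = v) := by
    intro z
    by_cases hz : z ∈ S0
    · obtain ⟨v, hv⟩ := hA.shift z ((hS0' z).1 hz)
      exact ⟨v, fun _ => hv⟩
    · exact ⟨v0, fun h => absurd h hz⟩
  choose V hV using hch
  have hsh0 : ∀ z : k, h - algebraMap k K z ≠ 0 := fun z => sub_ne_zero.2 (hhc z)
  have hfac : bet d h = -(4 * ∏ z ∈ S0, (h - algebraMap k K z)) := bet_eq hd0 hω h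
  have o4 : ∀ v : Place k K, v.ord (4 : K) = 0 := by
    intro v
    have := v.ord_const h4k
    rwa [map_ofNat] at this
  have hprod0 : ∏ z ∈ S0, (h - algebraMap k K z) ≠ 0 := Finset.prod_ne_zero_iff.2 fun z _ => hsh0 z
  have hordb : ∀ v : Place k K, v.ord (bet d h) = ∑ z ∈ S0, v.ord (h - algebraMap k K z) := by
    intro v
    rw [hfac, v.ord_neg, v.ord_mul h4K hprod0, o4, zero_add, T4.ord_prod v _ _ (fun z _ => hsh0 z)]
  have hregb : ∀ v : Place k K, 0 ≤ v.ord h → 0 ≤ v.ord (bet d h) := by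
    intro v hv
    rw [hordb]
    exact Finset.sum_nonneg fun z _ => ord_nonneg_sub v hv z
  have o3 : ∀ v : Place k K, v.ord (3 : K) = 0 := by
    intro v
    have := v.ord_const h3
    rwa [map_ofNat] at this
  have hsc : ∀ v : Place k K, 0 ≤ v.ord h → Sc v (aS d h) (bS d h) 3 (bet d h) 1 := by
    intro v hv
    refine ⟨isT3 d h, one_ne_zero, ?_, ?_⟩
    · rw [one_mul]
      exact Or.inr (by rw [o3])
    · rw [one_pow, one_mul]
      exact Or.inr (hregb v hv)
  set B : Finset (Place k K) := insert vi (insert v0 (S0.image V)) with hB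
  have hnot : ∀ v : Place k K, v ∉ B → v ≠ vi ∧ v ≠ v0 ∧ ∀ z ∈ S0, v ≠ V z := by
    intro v hv
    rw [hB, Finset.mem_insert, Finset.mem_insert, Finset.mem_image] at hv
    push Not at hv
    exact ⟨hv.1, hv.2.1, fun z hz e => hv.2.2 z hz e.symm⟩
  have hab := ab_of_disc hΔ
  have hred3 : ∀ v : Place k K, v.red (1 * 3 : K) ≠ 0 := by
    intro v
    rw [one_mul]
    exact v.red_ne_zero h3K (o3 v)
  -- places where `h` is a unit
  have hgood : ∀ v : Place k K, v ∉ B → locTerm v (aS d h) (bS d h) = 0 := by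
    intro v hv
    obtain ⟨g1, g2, g3⟩ := hnot v hv
    rcases lt_trichotomy (v.ord h) 0 with hneg | hzero | hposv
    · have hdv : (3 : ℤ) ∣ v.ord h := by
        by_contra hcon
        exact g1 (hviu v hneg hcon)
      obtain ⟨e, he⟩ := hdv
      refine term_pole h6 (isT3 d h) hΔ hβ0 (e := -(d * e)) ?_ ?_
      · have : e < 0 := by omega
        have := mul_neg_of_pos_of_neg (by exact_mod_cast hd0 : (0 : ℤ) < d) this
        omega
      · rw [hpole v hneg, he]
        ring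
    · have hs := hsc v hzero.ge
      have e1 : v.ord (bet d h) = 0 := by
        rw [hordb]
        refine Finset.sum_eq_zero fun z hz => ?_
        have h1 := ord_nonneg_sub v hzero.ge z
        have h3 : ¬ 0 < v.ord (h - algebraMap k K z) := fun h5 => g3 z hz ((hV z hz).2.2.2 v h5)
        omega
      have hb : v.red (1 ^ 3 * bet d h) ≠ 0 := by
        rw [one_pow, one_mul]
        exact v.red_ne_zero hβ0 e1
      apply locTerm_good
      rw [hs.disc h3 hΔ (hs.isMin h3 (Or.inr hb))]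
      refine ⟨hb, fun heq => ?_⟩
      -- `4 * 27 = 27 * β` means that `h ^ d` reduces to zero
      have hreg : v.Reg (bet d h) := Or.inr e1.ge
      have hs0 : v.ord (h ^ d) = 0 := by rw [v.ord_pow, hzero, mul_zero]
      have hrs : v.Reg (h ^ d) := Or.inr hs0.ge
      have e2 : v.red (bet d h) = 4 - 4 * v.red (h ^ d) := by
        have e3 : bet d h = ((4 : ℕ) : K) - ((4 : ℕ) : K) * h ^ d := by
          unfold bet
          push_cast
          ring
        rw [e3, v.red_sub (reg_nat 4) (v.reg_mul (reg_nat 4) hrs), v.red_mul (reg_nat 4) hrs,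
          red_nat]
        push_cast
        ring
      have e4 : v.red (3 : K) = 3 := by
        have : (3 : K) = ((3 : ℕ) : K) := by push_cast; ring
        rw [this, red_nat]
        push_cast
        rfl
      rw [one_pow, one_mul, one_mul, e4, e2] at heq
      have h108 : (108 : v.RF) * v.red (h ^ d) = 0 := by linear_combination heq
      rcases mul_eq_zero.1 h108 with h5 | h5
      · have h2' := n2' h6 v
        have h3' := n3 h3 v
        have : (108 : v.RF) = 2 * 2 * 3 ^ 3 := by norm_num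
        rw [this] at h5
        exact mul_ne_zero (mul_ne_zero h2' h2') (pow_ne_zero 3 h3') h5
      · exact v.red_ne_zero (pow_ne_zero _ hh0) hs0 h5
    · exact absurd (hv0u v hposv) g2
  have hts : termSum k (aS d h) (bS d h) =
      ∑ v ∈ B, locTerm v (aS d h) (bS d h) * 3 ^ padicValNat 3 (S.deg v) := by
    unfold termSum
    apply finsum_eq_sum_of_support_subset
    intro v hv
    rw [Function.mem_support] at hv
    rw [Finset.mem_coe]
    by_contra hcon
    apply hv
    rw [hgood v hcon, zero_mul]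
  set F : Place k K → ℕ := fun v =>
    locTerm v (aS d h) (bS d h) * 3 ^ padicValNat 3 (S.deg v) with hF
  have f1 : F vi ≤ 2 := by
    rw [hF]
    simp only
    rw [cop3 hvid, mul_one]
    exact locTerm_two _ _ _
  have f2 : F v0 ≤ 1 := by
    rw [hF]
    simp only
    rw [cop3 hv0d, mul_one]
    have hp : 0 < v0.ord (h ^ d) := by
      rw [v0.ord_pow]
      exact mul_pos (by exact_mod_cast hd0) hv0
    have e1 := ord_one_sub' v0 hp
    have e2 : v0.ord (bet d h) = 0 := by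
      unfold bet
      rw [v0.ord_mul h4K e1.1, o4, zero_add, e1.2]
    refine locTerm_node h6 (hsc v0 hv0.le) hΔ ?_
    rw [one_pow, one_mul]
    exact v0.red_ne_zero hβ0 e2
  have f3 : ∀ z ∈ S0, F (V z) ≤ 1 := by
    intro z hz
    obtain ⟨g1, g2, g3, g4⟩ := hV z hz
    have hz0 : z ≠ 0 := by
      rintro rfl
      have := (hS0' 0).1 hz
      rw [zero_pow (by omega)] at this
      exact zero_ne_one this
    have e0 := (ord_of_zero (V z) g1 hz0).2
    rw [hF]
    simp only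
    rw [cop3 g3, mul_one]
    by_cases hb : (V z).red (1 ^ 3 * bet d h) = 0
    · exact locTerm_split _ ((hsc (V z) e0.ge).split h6 hab hb (hred3 _))
    · exact locTerm_node h6 (hsc (V z) e0.ge) hΔ hb
  have hcard : S0.card = d := hω.card_nthRootsFinset
  have f4 : ∑ v ∈ S0.image V, F v ≤ d := by
    calc ∑ v ∈ S0.image V, F v ≤ ∑ v ∈ S0.image V, 1 := by
          refine Finset.sum_le_sum fun v hv => ?_
          obtain ⟨z, hz, rfl⟩ := Finset.mem_image.1 hv
          exact f3 z hz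
      _ = (S0.image V).card := by rw [Finset.sum_const, smul_eq_mul, mul_one]
      _ ≤ S0.card := Finset.card_image_le
      _ = d := hcard
  have f5 : ∑ v ∈ B, F v ≤ F vi + (F v0 + ∑ v ∈ S0.image V, F v) :=
    (sum_insert_le _ _ _).trans (Nat.add_le_add_left (sum_insert_le _ _ _) _)
  have f6 : M + 4 ≤ ∑ v ∈ B, F v := by rw [← hts]; exact hbd
  omega

end upper

end Pool.Agent.TH958.T6
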